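import Pool.Agent.H.MP_7e6923_gt.Omega

set_option autoImplicit false

open Set Topology Filter

namespace Pool.Agent.H.MP_7e6923_gt

theorem mem_cl_of_almost {x : StoneCech ℕ} (hx : x ∉ range (stoneCechUnit : ℕ → StoneCech ℕ))
    {D A : Set ℕ} (hD : x ∈ cl D) (h : (D \ A).Finite) : x ∈ cl A := by
  by_contra hcon
  rw [← mem_cl_compl] at hcon
  have h1 : x ∈ cl (D ∩ Aᶜ) := cl_inter ⟨hD, hcon⟩
  exact hx (cl_finite h h1)

/-- Every nonempty `G_δ` subset of `ω*` has at least two points: version for a countable family of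
neighbourhoods of a point. -/
theorem exists_two_points (p : OmegaStar) (O : ℕ → Set OmegaStar) (hO : ∀ n, O n ∈ 𝓝 p) :
    ∃ q₁ q₂ : OmegaStar, q₁ ≠ q₂ ∧ (∀ n, q₁ ∈ O n) ∧ (∀ n, q₂ ∈ O n) := by
  have h : ∀ n, ∃ A : Set ℕ, p.1 ∈ cl A ∧ ∀ q : OmegaStar, q.1 ∈ cl A → q ∈ O n := by
    intro n
    have h1 := hO n
    rw [nhds_subtype_eq_comap] at h1
    obtain ⟨W, hW, hWO⟩ := h1
    obtain ⟨A, hA, hAW⟩ := exists_cl hW
    exact ⟨A, hA, fun q hq => hWO (hAW hq)⟩
  choose A hpA hA using h
  -- the finite intersections are infinite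
  have hint : ∀ n, p.1 ∈ cl (⋂ i ∈ Finset.range (n+1), A i) := by
    intro n
    induction n with
    | zero => simpa using hpA 0
    | succ n ih =>
      rw [Finset.range_add_one, Finset.set_biInter_insert]
      exact cl_inter ⟨hpA _, ih⟩
  have hinf : ∀ n, (⋂ i ∈ Finset.range (n+1), A i).Infinite := by
    intro n hfin
    exact p.2 (cl_finite hfin (hint n))
  -- choose increasing sequence
  have hex : ∀ n m : ℕ, ∃ k, m < k ∧ k ∈ ⋂ i ∈ Finset.range (n+1), A i := by
    intro n m
    obtain ⟨k, hk, hk'⟩ := (hinf n).exists_gt m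
    exact ⟨k, hk', hk⟩
  choose nx hnx1 hnx2 using hex
  let k : ℕ → ℕ := fun n => Nat.rec (nx 0 0) (fun n prev => nx (n+1) prev) n
  have hk0 : k 0 = nx 0 0 := rfl
  have hks : ∀ n, k (n+1) = nx (n+1) (k n) := fun n => rfl
  have hkmono : StrictMono k := strictMono_nat_of_lt_succ (fun n => by rw [hks]; exact hnx1 _ _)
  have hkA : ∀ n i, i ≤ n → k n ∈ A i := by
    intro n i hin
    have : k n ∈ ⋂ i ∈ Finset.range (n+1), A i := by
      cases n with
      | zero => exact hnx2 0 0
      | succ n => rw [hks]; exact hnx2 _ _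
    rw [mem_iInter₂] at this
    exact this i (Finset.mem_range.2 (by omega))
  have hkinj := hkmono.injective
  have key : ∀ s : ℕ → ℕ, StrictMono s → ∃ q : OmegaStar, q.1 ∈ cl (range (fun n => k (s n))) ∧
      ∀ n, q ∈ O n := by
    intro s hs
    have hinf : (range (fun n => k (s n))).Infinite :=
      infinite_range_of_injective (hkinj.comp hs.injective)
    obtain ⟨x, hx, hx'⟩ := exists_mem_cl_of_infinite hinf
    refine ⟨⟨x, hx'⟩, hx, fun i => hA i ⟨x, hx'⟩ ?_⟩
    refine mem_cl_of_almost hx' hx ?_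
    refine ((Finset.range i).image (fun n => k (s n))).finite_toSet.subset ?_
    rintro _ ⟨⟨n, rfl⟩, hn⟩
    rw [Finset.coe_image]
    refine ⟨n, ?_, rfl⟩
    rw [Finset.coe_range, mem_Iio]
    by_contra hcon
    exact hn (hkA (s n) i (le_trans (not_lt.1 hcon) (hs.id_le n)))
  obtain ⟨q₁, h1, h1'⟩ := key (fun n => 2 * n) (fun a b h => by simp only; omega)
  obtain ⟨q₂, h2, h2'⟩ := key (fun n => 2 * n + 1) (fun a b h => by simp only; omega)
  refine ⟨q₁, q₂, ?_, h1', h2'⟩
  rintro rfl
  have h3 := cl_inter ⟨h1, h2⟩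
  have h4 : range (fun n => k (2 * n)) ∩ range (fun n => k (2 * n + 1)) = ∅ := by
    ext m
    simp only [mem_inter_iff, mem_range, mem_empty_iff_false, iff_false, not_and, not_exists]
    rintro ⟨a, rfl⟩ b hb
    have h5 : 2 * b + 1 = 2 * a := @hkinj (2 * b + 1) (2 * a) hb
    omega
  rw [h4] at h3
  exact q₁.2 (cl_finite finite_empty h3)

/-- There are infinitely many clopen subsets of `ω*`. -/
theorem exists_clopen_seq : ∃ c : ℕ → Set OmegaStar, (∀ n, IsClopen (c n)) ∧
    Function.Injective c := by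
  obtain ⟨b, hb, hfree⟩ := exists_free_family
  refine ⟨fun n => b {n}, fun n => hb _, ?_⟩
  intro m n hmn
  by_contra hne
  have hne' : ({m} : Set ℕ) ≠ {n} := by simpa using hne
  obtain ⟨s, -, h1, h2⟩ := hfree {{m}} {{n}} (by simpa using hne') (by simp) (by simp)
  have h1' := h1 {m} (by simp)
  have h2' := h2 {n} (by simp)
  simp only at hmn
  rw [hmn] at h1'
  exact h2' h1'

theorem locally_const {T S : Type*} [TopologicalSpace T] [CompactSpace T] [TopologicalSpace S]
    {b : Set S} (hb : IsClopen b) (g : C(T, S)) :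
    IsClopen {f : C(T, S) | f ⁻¹' b = g ⁻¹' b} := by
  have hb' : IsClopen (g ⁻¹' b) := hb.preimage g.continuous
  have e : {f : C(T, S) | f ⁻¹' b = g ⁻¹' b} =
      {f : C(T, S) | MapsTo f (g ⁻¹' b) b} ∩ {f : C(T, S) | MapsTo f (g ⁻¹' b)ᶜ bᶜ} := by
    ext f
    constructor
    · intro h
      have h' : f ⁻¹' b = g ⁻¹' b := h
      refine ⟨fun t ht => ?_, fun t ht => ?_⟩
      · rw [← h'] at ht; exact ht
      · rw [← h'] at ht; exact ht
    · rintro ⟨h1, h2⟩
      ext t
      constructor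
      · intro ht
        by_contra hcon
        exact h2 hcon ht
      · intro ht
        exact h1 ht
  rw [e]
  exact (ContinuousMap.isClopen_setOfPred_mapsTo hb'.isClosed.isCompact hb).inter
    (ContinuousMap.isClopen_setOfPred_mapsTo hb'.compl.isClosed.isCompact hb.compl)

/-- `C(ω*, ω*)` is not a `G_δ` in its Stone-Cech compactification. -/
theorem not_isGdelta : ¬ IsGδ (range (stoneCechUnit : C(OmegaStar, OmegaStar) →
    StoneCech C(OmegaStar, OmegaStar))) := by
  classical
  intro hG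
  rw [isGδ_iff_eq_iInter_nat] at hG
  obtain ⟨W, hW, hWeq⟩ := hG
  -- pick a point
  obtain ⟨r, hr⟩ := exists_surjection
  obtain ⟨p, -⟩ := hr (stoneCechUnit 0)
  let f0 : C(OmegaStar, OmegaStar) := ContinuousMap.const _ p
  have hf0 : ∀ n, stoneCechUnit f0 ∈ W n := by
    intro n
    have : stoneCechUnit f0 ∈ ⋂ n, W n := by rw [← hWeq]; exact ⟨f0, rfl⟩
    exact mem_iInter.1 this n
  have hV : ∀ n, ∃ C ∈ 𝓝 (stoneCechUnit f0), IsClosed C ∧ C ⊆ W n := fun n =>
    exists_mem_nhds_isClosed_subset ((hW n).mem_nhds (hf0 n))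
  choose C hCn hCc hCW using hV
  have hcyl : ∀ n, ∃ E : Set (Set OmegaStar), E.Finite ∧ (∀ b ∈ E, IsClopen b) ∧
      ∀ f : C(OmegaStar, OmegaStar), (∀ b ∈ E, ∀ t ∈ (univ : Set OmegaStar), (f t ∈ b ↔ f0 t ∈ b)) →
        f ∈ stoneCechUnit ⁻¹' (C n) := by
    intro n
    exact exists_cyl dense_univ (continuous_stoneCechUnit.continuousAt.preimage_mem_nhds (hCn n))
  choose E hEfin hEclo hE using hcyl
  let O : ℕ → Set OmegaStar := fun n => ⋂ b ∈ E n, (if p ∈ b then b else bᶜ)
  have hO : ∀ n, O n ∈ 𝓝 p := by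
    intro n
    have hclo : IsClopen (O n) := by
      refine (hEfin n).isClopen_biInter (fun c hc => ?_)
      split_ifs
      · exact hEclo n c hc
      · exact (hEclo n c hc).compl
    refine hclo.isOpen.mem_nhds ?_
    simp only [O, mem_iInter]
    intro b _
    split_ifs with h
    · exact h
    · exact h
  have hOmem : ∀ n t, t ∈ O n → ∀ b ∈ E n, (t ∈ b ↔ p ∈ b) := by
    intro n t ht b hb
    have := mem_iInter₂.1 ht b hb
    split_ifs at this with h
    · simp [h, this]
    · simp only [h, iff_false]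
      exact this
  obtain ⟨q₁, q₂, hne, hq₁, hq₂⟩ := exists_two_points p O hO
  obtain ⟨b, hb, hq₁b, hbq₂⟩ := compact_exists_isClopen_in_isOpen
    (isOpen_compl_singleton (x := q₂)) (show q₁ ∈ ({q₂} : Set OmegaStar)ᶜ from hne)
  have hq₂b : q₂ ∉ b := fun h => hbq₂ h rfl
  obtain ⟨c, hc, hcinj⟩ := exists_clopen_seq
  let h : ℕ → C(OmegaStar, OmegaStar) := fun j =>
    ⟨fun t => if t ∈ c j then q₁ else q₂, by
      apply IsLocallyConstant.continuous
      rw [IsLocallyConstant.iff_isOpen_fiber]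
      intro q
      have : (fun t => if t ∈ c j then q₁ else q₂) ⁻¹' {q} =
          (if q₁ = q then c j else ∅) ∪ (if q₂ = q then (c j)ᶜ else ∅) := by
        ext t
        by_cases ht : t ∈ c j <;> by_cases h1 : q₁ = q <;> by_cases h2 : q₂ = q <;>
          simp [ht, h1, h2]
      rw [this]
      refine IsOpen.union ?_ ?_
      · split_ifs
        · exact (hc j).isOpen
        · exact isOpen_empty
      · split_ifs
        · exact (hc j).compl.isOpen
        · exact isOpen_empty⟩
  have hpre : ∀ j, (h j) ⁻¹' b = c j := by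
    intro j
    ext t
    by_cases ht : t ∈ c j
    · simp [h, ht, hq₁b]
    · simp [h, ht, hq₂b]
  have hmem : ∀ j n, stoneCechUnit (h j) ∈ C n := by
    intro j n
    apply hE n
    intro b' hb' t _
    have h1 : h j t = q₁ ∨ h j t = q₂ := by
      by_cases ht : t ∈ c j
      · left; simp [h, ht]
      · right; simp [h, ht]
    rcases h1 with h1 | h1
    · rw [h1]; exact hOmem n q₁ (hq₁ n) b' hb'
    · rw [h1]; exact hOmem n q₂ (hq₂ n) b' hb'
  have hK : IsCompact (⋂ n, C n) := (isClosed_iInter hCc).isCompact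
  obtain ⟨z, hz, hclus⟩ := hK.exists_mapClusterPt (f := atTop)
    (u := fun j => stoneCechUnit (h j)) (by
      rw [map_le_iff_le_comap, comap_principal]
      refine le_principal_iff.2 (Filter.univ_mem' fun j => ?_)
      exact mem_iInter.2 (hmem j))
  have hzr : z ∈ range (stoneCechUnit : C(OmegaStar, OmegaStar) → _) := by
    rw [hWeq]
    exact mem_iInter.2 fun n => hCW n (mem_iInter.1 hz n)
  obtain ⟨g, rfl⟩ := hzr
  -- indicator function
  have hclopen := locally_const hb g
  have hχ : Continuous (fun f : C(OmegaStar, OmegaStar) => decide (f ⁻¹' b = g ⁻¹' b)) := by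
    rw [continuous_discrete_rng]
    intro y
    cases y
    · have : (fun f : C(OmegaStar, OmegaStar) => decide (f ⁻¹' b = g ⁻¹' b)) ⁻¹' {false} =
          {f : C(OmegaStar, OmegaStar) | f ⁻¹' b = g ⁻¹' b}ᶜ := by
        ext f; simp
      rw [this]; exact hclopen.compl.isOpen
    · have : (fun f : C(OmegaStar, OmegaStar) => decide (f ⁻¹' b = g ⁻¹' b)) ⁻¹' {true} =
          {f : C(OmegaStar, OmegaStar) | f ⁻¹' b = g ⁻¹' b} := by
        ext f; simp
      rw [this]; exact hclopen.isOpen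
  have hX := continuous_stoneCechExtend hχ
  have hXu : ∀ f, stoneCechExtend hχ (stoneCechUnit f) = decide (f ⁻¹' b = g ⁻¹' b) := fun f =>
    stoneCechExtend_stoneCechUnit hχ f
  have hnhds : (stoneCechExtend hχ) ⁻¹' {true} ∈ 𝓝 (stoneCechUnit g) := by
    refine ((isOpen_discrete ({true} : Set Bool)).preimage hX).mem_nhds ?_
    rw [mem_preimage, hXu g]
    simp
  have hfreq := mapClusterPt_iff_frequently.1 hclus _ hnhds
  have hfreq' : ∃ᶠ j in atTop, c j = g ⁻¹' b := by
    refine hfreq.mono (fun j hj => ?_)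
    rw [mem_preimage, hXu (h j), mem_singleton_iff, decide_eq_true_eq, hpre j] at hj
    exact hj
  rw [Nat.frequently_atTop_iff_infinite] at hfreq'
  apply hfreq'
  refine Set.Subsingleton.finite ?_
  intro i hi j hj
  exact hcinj (hi.trans hj.symm)

end Pool.Agent.H.MP_7e6923_gt
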