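import Mathlib

set_option autoImplicit false

open Set Topology

namespace Pool.Agent.H.MP_7e6923_gt

variable {S I : Type*} [TopologicalSpace S]

/-- `e` is free of the family `b` outside the finite set `F` of indices: every finite Boolean
combination of the `b α`, `α ∉ F`, meets `e`. -/
def Free (b : I → Set S) (F : Finset I) (e : Set S) : Prop :=
  ∀ P N : Finset I, Disjoint P N → Disjoint P F → Disjoint N F →
    ∃ s ∈ e, (∀ α ∈ P, s ∈ b α) ∧ (∀ α ∈ N, s ∉ b α)

theorem Free.mono {b : I → Set S} {F G : Finset I} {e : Set S} (h : Free b F e) (hFG : F ⊆ G) :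
    Free b G e := by
  intro P N hPN hP hN
  exact h P N hPN (hP.mono_right hFG) (hN.mono_right hFG)

open Classical in
/-- There is a point `p` outside all `b α`, each of whose clopen neighbourhoods is free of the
family outside a finite set. -/
theorem exists_good [CompactSpace S] {b : I → Set S} (hb : ∀ α, IsClopen (b α))
    (hI : Free b ∅ univ) :
    ∃ p : S, (∀ α, p ∉ b α) ∧ ∀ e : Set S, IsClopen e → p ∈ e → ∃ F : Finset I, Free b F e := by
  -- the bad clopen sets
  let Bad : Type _ := {e : Set S // IsClopen e ∧ ∀ F : Finset I, ¬ Free b F e}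
  have key : ∀ (A : Finset I) (B : Finset Bad), ∃ P N : Finset I, Disjoint P N ∧ A ⊆ N ∧
      ∀ s : S, (∀ α ∈ P, s ∈ b α) → (∀ α ∈ N, s ∉ b α) → ∀ e ∈ B, s ∉ e.1 := by
    intro A B
    induction B using Finset.induction_on with
    | empty => exact ⟨∅, A, by simp, Finset.Subset.refl _, by simp⟩
    | insert e B he ih =>
      obtain ⟨P, N, hPN, hAN, h⟩ := ih
      have hbad := e.2.2 (P ∪ N)
      unfold Free at hbad
      push Not at hbad
      obtain ⟨P', N', hPN', hP', hN', h'⟩ := hbad
      rw [Finset.disjoint_union_right] at hP' hN'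
      refine ⟨P ∪ P', N ∪ N', ?_, hAN.trans Finset.subset_union_left, ?_⟩
      · rw [Finset.disjoint_union_left, Finset.disjoint_union_right, Finset.disjoint_union_right]
        exact ⟨⟨hPN, hN'.1.symm⟩, hP'.2, hPN'⟩
      · intro s hsP hsN e' he'
        rw [Finset.mem_insert] at he'
        rcases he' with rfl | he'
        · intro hse
          obtain ⟨α, hα, hsα⟩ := h' s hse (fun α hα => hsP α (Finset.mem_union_right _ hα))
          exact hsN α (Finset.mem_union_right _ hα) hsα
        · exact h s (fun α hα => hsP α (Finset.mem_union_left _ hα))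
            (fun α hα => hsN α (Finset.mem_union_left _ hα)) e' he'
  have hne : ((univ : Set S) ∩ ⋂ i : I ⊕ Bad, Sum.elim (fun α => (b α)ᶜ) (fun e => (e.1)ᶜ) i).Nonempty := by
    apply isCompact_univ.inter_iInter_nonempty
    · rintro (α | e)
      · exact (hb α).compl.isClosed
      · exact e.2.1.compl.isClosed
    · intro u
      obtain ⟨P, N, hPN, hAN, h⟩ := key (u.preimage Sum.inl Sum.inl_injective.injOn)
        (u.preimage Sum.inr Sum.inr_injective.injOn)
      obtain ⟨s, -, hsP, hsN⟩ := hI P N hPN (by simp) (by simp)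
      refine ⟨s, mem_univ _, ?_⟩
      simp only [mem_iInter]
      rintro (α | e) hi
      · exact hsN α (hAN (by simpa using hi))
      · exact h s hsP hsN e (by simpa using hi)
  obtain ⟨p, -, hp⟩ := hne
  rw [mem_iInter] at hp
  refine ⟨p, fun α => hp (Sum.inl α), fun e he hpe => ?_⟩
  by_contra hcon
  push Not at hcon
  exact hp (Sum.inr ⟨e, he, hcon⟩) hpe

/-- Choice of a point in a free clopen set lying in exactly one prescribed `b α` (outside `F`). -/
theorem Free.exists_point [CompactSpace S] {b : I → Set S} (hb : ∀ α, IsClopen (b α))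
    {F : Finset I} {e : Set S} (he : IsClopen e) (h : Free b F e) {α : I} (hα : α ∉ F) :
    ∃ q ∈ e, q ∈ b α ∧ ∀ β, q ∈ b β → β ∈ F ∨ β = α := by
  classical
  let J : Type _ := {β : I // β ∉ F ∧ β ≠ α}
  have hne : ((e ∩ b α) ∩ ⋂ i : J, (b i.1)ᶜ).Nonempty := by
    apply (he.isClosed.inter (hb α).isClosed).isCompact.inter_iInter_nonempty
    · rintro β
      exact (hb β.1).compl.isClosed
    · intro u
      obtain ⟨s, hse, hsP, hsN⟩ := h {α} (u.image Subtype.val) (by
          rw [Finset.disjoint_singleton_left]
          intro hmem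
          rw [Finset.mem_image] at hmem
          obtain ⟨β, -, hβ⟩ := hmem
          exact β.2.2 hβ) (by simpa using hα) (by
          rw [Finset.disjoint_left]
          intro β hβ
          rw [Finset.mem_image] at hβ
          obtain ⟨β', -, rfl⟩ := hβ
          exact β'.2.1)
      refine ⟨s, ⟨hse, hsP α (by simp)⟩, ?_⟩
      simp only [mem_iInter]
      intro β hβ
      exact hsN β.1 (Finset.mem_image_of_mem _ hβ)
  obtain ⟨q, ⟨hqe, hqα⟩, hq⟩ := hne
  rw [mem_iInter] at hq
  refine ⟨q, hqe, hqα, fun β hβ => ?_⟩
  by_contra hcon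
  push Not at hcon
  exact hq ⟨β, hcon.1, hcon.2⟩ hβ

/-- A point in the intersection of a decreasing sequence of free clopen sets, lying in all `b α`
with `α` outside the union of the exceptional finite sets. -/
theorem exists_limit_point [CompactSpace S] {b : I → Set S} (hb : ∀ α, IsClopen (b α))
    {F : ℕ → Finset I} {e : ℕ → Set S} (he : ∀ n, IsClopen (e n)) (hanti : Antitone e)
    (h : ∀ n, Free b (F n) (e n)) :
    ∃ y, (∀ n, y ∈ e n) ∧ ∀ α, (∀ n, α ∉ F n) → y ∈ b α := by
  classical
  let J : Type _ := {α : I // ∀ n, α ∉ F n}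
  have hne : ((univ : Set S) ∩ ⋂ i : ℕ ⊕ J, Sum.elim (fun n => e n) (fun α => b α.1) i).Nonempty := by
    apply isCompact_univ.inter_iInter_nonempty
    · rintro (n | α)
      · exact (he n).isClosed
      · exact (hb α.1).isClosed
    · intro u
      let v : Finset ℕ := u.preimage Sum.inl Sum.inl_injective.injOn
      let w : Finset J := u.preimage Sum.inr Sum.inr_injective.injOn
      let m : ℕ := v.sup id
      obtain ⟨s, hse, hsP, -⟩ := h m (w.image Subtype.val) ∅ (by simp) (by
          rw [Finset.disjoint_left]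
          intro β hβ
          rw [Finset.mem_image] at hβ
          obtain ⟨β', -, rfl⟩ := hβ
          exact β'.2 m) (by simp)
      refine ⟨s, mem_univ _, ?_⟩
      simp only [mem_iInter]
      rintro (n | α) hi
      · have : n ∈ v := by simpa [v] using hi
        exact hanti (Finset.le_sup (f := id) this) hse
      · have : α ∈ w := by simpa [w] using hi
        exact hsP α.1 (Finset.mem_image_of_mem _ this)
  obtain ⟨y, -, hy⟩ := hne
  rw [mem_iInter] at hy
  exact ⟨y, fun n => hy (Sum.inl n), fun α hα => hy (Sum.inr ⟨α, hα⟩)⟩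

end Pool.Agent.H.MP_7e6923_gt
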