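import Pool.Agent.H.MP_7e6923_gt.Cyl
import Pool.Agent.H.MP_7e6923_gt.Good

set_option autoImplicit false

open Set Topology

namespace Pool.Agent.H.MP_7e6923_gt

variable {S I : Type*} [TopologicalSpace S] [CompactSpace S] [T2Space S]

/-- The continuous extension to the Stone-Cech compactification of a sequence. -/
noncomputable def ext (f : ℕ → S) : C(StoneCech ℕ, S) :=
  ⟨stoneCechExtend (continuous_of_discreteTopology : Continuous f), continuous_stoneCechExtend _⟩

@[simp] theorem ext_unit (f : ℕ → S) (n : ℕ) : ext f (stoneCechUnit n) = f n := by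
  simp [ext]

omit [CompactSpace S] [T2Space S] in
/-- labelling condition -/
def Lab (b : I → Set S) (f : C(StoneCech ℕ, S)) : Prop :=
  ∀ α β, α ≠ β → ∀ i : ℕ, ¬ (f (stoneCechUnit (i+1)) ∈ b α ∧ f (stoneCechUnit (i+1)) ∈ b β ∧
    ∀ j < i, f (stoneCechUnit (j+1)) ∉ b α ∧ f (stoneCechUnit (j+1)) ∉ b β)

/-- first closed set -/
def A0 (b : I → Set S) : Set C(StoneCech ℕ, S) :=
  {f | (∀ α, f (stoneCechUnit 0) ∉ b α ∨ ∃ i : ℕ, f (stoneCechUnit (i+1)) ∈ b α) ∧ Lab b f}

/-- second closed set -/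
def A1 (b : I → Set S) : Set C(StoneCech ℕ, S) :=
  {f | (∀ α, f (stoneCechUnit 0) ∈ b α ∨ ∃ i : ℕ, f (stoneCechUnit (i+1)) ∈ b α) ∧ Lab b f}

omit [CompactSpace S] [T2Space S] in
theorem isClosed_eval {c : Set S} (hc : IsClosed c) (t : StoneCech ℕ) :
    IsClosed {f : C(StoneCech ℕ, S) | f t ∈ c} :=
  hc.preimage (continuous_eval_const t)

omit [CompactSpace S] [T2Space S] in
theorem isClopen_eval {c : Set S} (hc : IsClopen c) (t : StoneCech ℕ) :
    IsClopen {f : C(StoneCech ℕ, S) | f t ∈ c} :=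
  ⟨isClosed_eval hc.isClosed t, hc.isOpen.preimage (continuous_eval_const t)⟩

omit [CompactSpace S] [T2Space S] in
theorem isClosed_exists {c : Set S} (hc : IsClopen c) :
    IsClosed {f : C(StoneCech ℕ, S) | ∃ i : ℕ, f (stoneCechUnit (i+1)) ∈ c} := by
  rw [← isOpen_compl_iff]
  have e : {f : C(StoneCech ℕ, S) | ∃ i : ℕ, f (stoneCechUnit (i+1)) ∈ c}ᶜ =
      {f : C(StoneCech ℕ, S) | MapsTo f (closure (range fun i : ℕ => stoneCechUnit (i+1))) cᶜ} := by
    ext f
    constructor
    · intro hf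
      have h1 : MapsTo f (range fun i : ℕ => stoneCechUnit (i+1)) cᶜ := by
        rintro _ ⟨i, rfl⟩ hmem
        exact hf ⟨i, hmem⟩
      have h2 := h1.closure f.continuous
      rwa [hc.compl.isClosed.closure_eq] at h2
    · rintro hf ⟨i, hi⟩
      exact hf (subset_closure ⟨i, rfl⟩) hi
  rw [e]
  exact ContinuousMap.isOpen_setOfPred_mapsTo isClosed_closure.isCompact hc.compl.isOpen

omit [CompactSpace S] [T2Space S] in
theorem isClosed_Lab {b : I → Set S} (hb : ∀ α, IsClopen (b α)) :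
    IsClosed {f : C(StoneCech ℕ, S) | Lab b f} := by
  unfold Lab
  simp only [ofPred_forall]
  refine isClosed_iInter fun α => isClosed_iInter fun β => isClosed_iInter fun _ =>
    isClosed_iInter fun i => ?_
  rw [← isOpen_compl_iff]
  have e : {f : C(StoneCech ℕ, S) | ¬ (f (stoneCechUnit (i+1)) ∈ b α ∧
      f (stoneCechUnit (i+1)) ∈ b β ∧
      ∀ j < i, f (stoneCechUnit (j+1)) ∉ b α ∧ f (stoneCechUnit (j+1)) ∉ b β)}ᶜ =
      ({f : C(StoneCech ℕ, S) | f (stoneCechUnit (i+1)) ∈ b α} ∩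
        {f : C(StoneCech ℕ, S) | f (stoneCechUnit (i+1)) ∈ b β}) ∩
      ⋂ j ∈ Finset.range i, ({f : C(StoneCech ℕ, S) | f (stoneCechUnit (j+1)) ∈ (b α)ᶜ} ∩
        {f : C(StoneCech ℕ, S) | f (stoneCechUnit (j+1)) ∈ (b β)ᶜ}) := by
    ext f
    simp only [mem_compl_iff, mem_ofPred_eq, not_not, mem_inter_iff, mem_iInter, Finset.mem_range]
    tauto
  rw [e]
  refine IsOpen.inter (IsOpen.inter (isClopen_eval (hb α) _).isOpen
    (isClopen_eval (hb β) _).isOpen) ?_
  exact (isClopen_biInter_finset (fun j _ => (isClopen_eval (hb α).compl _).inter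
    (isClopen_eval (hb β).compl _))).isOpen

omit [CompactSpace S] [T2Space S] in
theorem isClosed_A0 {b : I → Set S} (hb : ∀ α, IsClopen (b α)) : IsClosed (A0 b) := by
  have e : A0 b = (⋂ α, ({f : C(StoneCech ℕ, S) | f (stoneCechUnit 0) ∈ (b α)ᶜ} ∪
      {f : C(StoneCech ℕ, S) | ∃ i : ℕ, f (stoneCechUnit (i+1)) ∈ b α})) ∩
      {f : C(StoneCech ℕ, S) | Lab b f} := by
    ext f
    simp [A0]
  rw [e]
  exact (isClosed_iInter fun α => (isClosed_eval (hb α).compl.isClosed _).union
    (isClosed_exists (hb α))).inter (isClosed_Lab hb)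

omit [CompactSpace S] [T2Space S] in
theorem isClosed_A1 {b : I → Set S} (hb : ∀ α, IsClopen (b α)) : IsClosed (A1 b) := by
  have e : A1 b = (⋂ α, ({f : C(StoneCech ℕ, S) | f (stoneCechUnit 0) ∈ (b α)} ∪
      {f : C(StoneCech ℕ, S) | ∃ i : ℕ, f (stoneCechUnit (i+1)) ∈ b α})) ∩
      {f : C(StoneCech ℕ, S) | Lab b f} := by
    ext f
    simp [A1]
  rw [e]
  exact (isClosed_iInter fun α => (isClosed_eval (hb α).isClosed _).union
    (isClosed_exists (hb α))).inter (isClosed_Lab hb)

omit [CompactSpace S] [T2Space S] in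
theorem disjoint_A0_A1 [Uncountable I] (b : I → Set S) : Disjoint (A0 b) (A1 b) := by
  classical
  rw [Set.disjoint_left]
  rintro f ⟨h0, hL⟩ ⟨h1, -⟩
  have hex : ∀ α, ∃ i : ℕ, f (stoneCechUnit (i+1)) ∈ b α := by
    intro α
    rcases h0 α with h | h
    · rcases h1 α with h' | h'
      · exact absurd h' h
      · exact h'
    · exact h
  have hinj : Function.Injective (fun α => Nat.find (hex α)) := by
    intro α β hαβ
    by_contra hne
    apply hL α β hne (Nat.find (hex α))
    refine ⟨Nat.find_spec (hex α), ?_, ?_⟩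
    · have := Nat.find_spec (hex β)
      simp only at hαβ
      rwa [← hαβ] at this
    · intro j hj
      refine ⟨Nat.find_min (hex α) hj, ?_⟩
      simp only at hαβ
      rw [hαβ] at hj
      exact Nat.find_min (hex β) hj
  exact not_countable hinj.countable

omit [CompactSpace S] [T2Space S] in
/-- the labelling condition from a good enumeration -/
theorem Lab_of {b : I → Set S} {a : ℕ → I} {q : ℕ → S} {K : ℕ → Prop}
    (hK : ∀ i j, j ≤ i → K i → K j)
    (hq : ∀ i, K i → q i ∈ b (a i)) (hq' : ∀ i, K i → ∀ β, q i ∈ b β → ∃ j ≤ i, β = a j)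
    (f : C(StoneCech ℕ, S)) (hf : ∀ i, K i → f (stoneCechUnit (i+1)) = q i)
    (hf' : ∀ i, ¬ K i → ∀ α, f (stoneCechUnit (i+1)) ∉ b α) : Lab b f := by
  rintro α β hne i ⟨h1, h2, h3⟩
  by_cases hi : K i
  · rw [hf i hi] at h1 h2
    obtain ⟨j, hj, rfl⟩ := hq' i hi α h1
    obtain ⟨j', hj', rfl⟩ := hq' i hi β h2
    have hji : j = i := by
      rcases lt_or_eq_of_le hj with h | h
      · exfalso
        apply (h3 j h).1
        rw [hf j (hK i j hj hi)]
        exact hq j (hK i j hj hi)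
      · exact h
    have hji' : j' = i := by
      rcases lt_or_eq_of_le hj' with h | h
      · exfalso
        apply (h3 j' h).2
        rw [hf j' (hK i j' hj' hi)]
        exact hq j' (hK i j' hj' hi)
      · exact h
    apply hne
    rw [hji, hji']
  · exact hf' i hi α h1

/-- state of the construction -/
structure State (S I : Type*) where
  k : ℕ
  a : ℕ → I
  q : ℕ → S
  e : Set S

open Classical in
/-- invariants of a state -/
structure Inv (b : I → Set S) (p : S) (s : State S I) : Prop where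
  clopen : IsClopen s.e
  mem : p ∈ s.e
  free : Free b ((Finset.range s.k).image s.a) s.e
  inj : ∀ i < s.k, ∀ j < s.k, s.a i = s.a j → i = j
  q_mem : ∀ i < s.k, s.q i ∈ b (s.a i)
  q_first : ∀ i < s.k, ∀ β, s.q i ∈ b β → ∃ j ≤ i, β = s.a j

/-- relation between consecutive states -/
structure Rel (U : Set C(StoneCech ℕ, S)) (s s' : State S I) : Prop where
  lt : s.k < s'.k
  a_eq : ∀ i < s.k, s'.a i = s.a i
  q_eq : ∀ i < s.k, s'.q i = s.q i
  sub : s'.e ⊆ s.e
  q_new : ∀ i, s.k ≤ i → i < s'.k → s'.q i ∈ s.e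
  inU : ∀ z : C(StoneCech ℕ, S), z (stoneCechUnit 0) ∈ s'.e →
    (∀ i < s.k, z (stoneCechUnit (i+1)) = s.q i) →
    (∀ i, s.k ≤ i → z (stoneCechUnit (i+1)) ∈ s'.e) → z ∈ U

theorem exists_next [TotallyDisconnectedSpace S] [Infinite I] {b : I → Set S}
    (hb : ∀ α, IsClopen (b α)) {p : S}
    (hp : ∀ α, p ∉ b α) (hgood : ∀ e : Set S, IsClopen e → p ∈ e → ∃ F : Finset I, Free b F e)
    {U : Set C(StoneCech ℕ, S)} (hU : IsOpen U) (hAU : A0 b ⊆ U) (s : State S I)
    (hs : Inv b p s) : ∃ s' : State S I, Inv b p s' ∧ Rel U s s' := by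
  classical
  -- the point x
  let xf : ℕ → S := fun n => Nat.casesOn n p (fun i => if i < s.k then s.q i else p)
  let x : C(StoneCech ℕ, S) := ext xf
  have hx0 : x (stoneCechUnit 0) = p := by simp [x, xf]
  have hx1 : ∀ i < s.k, x (stoneCechUnit (i+1)) = s.q i := by
    intro i hi; simp [x, xf, hi]
  have hx2 : ∀ i, ¬ i < s.k → x (stoneCechUnit (i+1)) = p := by
    intro i hi; simp [x, xf, hi]
  have hxA : x ∈ A0 b := by
    refine ⟨fun α => Or.inl (by rw [hx0]; exact hp α), ?_⟩
    exact Lab_of (K := fun i => i < s.k) (fun i j hji hi => lt_of_le_of_lt hji hi)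
      hs.q_mem hs.q_first x hx1 (fun i hi α => by rw [hx2 i hi]; exact hp α)
  obtain ⟨E, hEfin, hEclo, hE⟩ := exists_cyl (D := range (stoneCechUnit : ℕ → StoneCech ℕ))
    denseRange_stoneCechUnit (hU.mem_nhds (hAU hxA))
  let e1 : Set S := ⋂ c ∈ E, (if p ∈ c then c else cᶜ)
  have he1 : IsClopen e1 := by
    refine hEfin.isClopen_biInter (fun c hc => ?_)
    split_ifs
    · exact hEclo c hc
    · exact (hEclo c hc).compl
  have hmem1 : ∀ t, t ∈ e1 ↔ ∀ c ∈ E, (t ∈ c ↔ p ∈ c) := by
    intro t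
    simp only [e1, mem_iInter]
    refine forall₂_congr fun c hc => ?_
    split_ifs with h
    · simp [h]
    · simp [h]
  have hp1 : p ∈ e1 := (hmem1 p).2 (fun c _ => Iff.rfl)
  let e' : Set S := s.e ∩ e1
  have he' : IsClopen e' := hs.clopen.inter he1
  obtain ⟨F0, hF0⟩ := hgood e' he' ⟨hs.mem, hp1⟩
  let F : Finset I := (Finset.range s.k).image s.a
  obtain ⟨αs, hαs⟩ := Infinite.exists_notMem_finset (F0 ∪ F)
  let New : Finset I := (insert αs F0) \ F
  let m : ℕ := New.card
  have hm : 0 < m := Finset.card_pos.2 ⟨αs, by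
    simp only [New, Finset.mem_sdiff, Finset.mem_insert, true_or, true_and]
    intro h; exact hαs (Finset.mem_union_right _ h)⟩
  let eqv : New ≃ Fin m := New.equivFin
  have hQ : ∀ α, α ∉ F → ∃ q ∈ s.e, q ∈ b α ∧ ∀ β, q ∈ b β → β ∈ F ∨ β = α := fun α hα =>
    hs.free.exists_point hb hs.clopen hα
  have hSne : Nonempty S := ⟨p⟩
  choose! Q hQe hQb hQu using hQ
  let a' : ℕ → I := fun i => if i < s.k then s.a i else
    if h : i - s.k < m then (eqv.symm ⟨i - s.k, h⟩ : I) else s.a i
  let q' : ℕ → S := fun i => if i < s.k then s.q i else Q (a' i)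
  have ha1 : ∀ i < s.k, a' i = s.a i := fun i hi => by simp [a', hi]
  have hq1 : ∀ i < s.k, q' i = s.q i := fun i hi => by simp [q', hi]
  have ha2 : ∀ i, s.k ≤ i → ∀ h : i - s.k < m, a' i = (eqv.symm ⟨i - s.k, h⟩ : I) := by
    intro i hi h
    simp [a', not_lt.2 hi, h]
  have ha2' : ∀ i, s.k ≤ i → i < s.k + m → a' i ∈ New := by
    intro i hi h
    rw [ha2 i hi (by omega)]
    exact (eqv.symm ⟨i - s.k, by omega⟩).2
  have ha2'' : ∀ i, s.k ≤ i → i < s.k + m → a' i ∉ F := by
    intro i hi h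
    exact (Finset.mem_sdiff.1 (ha2' i hi h)).2
  have hq2 : ∀ i, s.k ≤ i → q' i = Q (a' i) := by
    intro i hi
    simp [q', not_lt.2 hi]
  have hFmem : ∀ β, β ∈ F ↔ ∃ j < s.k, s.a j = β := by
    intro β; simp [F]
  refine ⟨⟨s.k + m, a', q', e'⟩, ?_, ?_⟩
  · constructor
    · exact he'
    · exact ⟨hs.mem, hp1⟩
    · refine hF0.mono ?_
      intro α hα
      simp only [Finset.mem_image, Finset.mem_range]
      by_cases hαF : α ∈ F
      · obtain ⟨j, hj, rfl⟩ := (hFmem α).1 hαF
        exact ⟨j, by omega, ha1 j hj⟩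
      · have hαN : α ∈ New := by
          simp only [New, Finset.mem_sdiff, Finset.mem_insert]
          exact ⟨Or.inr hα, hαF⟩
        refine ⟨s.k + (eqv ⟨α, hαN⟩ : ℕ), by have := (eqv ⟨α, hαN⟩).2; omega, ?_⟩
        have hlt : s.k + (eqv ⟨α, hαN⟩ : ℕ) - s.k < m := by
          have := (eqv ⟨α, hαN⟩).2
          omega
        rw [ha2 _ (by omega) hlt]
        have : (⟨s.k + (eqv ⟨α, hαN⟩ : ℕ) - s.k, hlt⟩ : Fin m) = eqv ⟨α, hαN⟩ := by
          ext; simp
        rw [this]
        simp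
    · intro i hi j hj hij
      simp only at hi hj hij
      by_cases h1 : i < s.k
      · by_cases h2 : j < s.k
        · rw [ha1 i h1, ha1 j h2] at hij
          exact hs.inj i h1 j h2 hij
        · exfalso
          apply ha2'' j (not_lt.1 h2) hj
          rw [← hij, ha1 i h1]
          exact (hFmem _).2 ⟨i, h1, rfl⟩
      · by_cases h2 : j < s.k
        · exfalso
          apply ha2'' i (not_lt.1 h1) hi
          rw [hij, ha1 j h2]
          exact (hFmem _).2 ⟨j, h2, rfl⟩
        · rw [ha2 i (not_lt.1 h1) (by omega), ha2 j (not_lt.1 h2) (by omega)] at hij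
          have h3 := eqv.symm.injective (Subtype.ext hij)
          simp only [Fin.mk.injEq] at h3
          omega
    · intro i hi
      simp only at hi ⊢
      by_cases h1 : i < s.k
      · rw [ha1 i h1, hq1 i h1]
        exact hs.q_mem i h1
      · rw [hq2 i (not_lt.1 h1)]
        exact hQb _ (ha2'' i (not_lt.1 h1) hi)
    · intro i hi β hβ
      simp only at hi hβ ⊢
      by_cases h1 : i < s.k
      · rw [hq1 i h1] at hβ
        obtain ⟨j, hj, rfl⟩ := hs.q_first i h1 β hβ
        exact ⟨j, hj, (ha1 j (lt_of_le_of_lt hj h1)).symm⟩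
      · rw [hq2 i (not_lt.1 h1)] at hβ
        rcases hQu _ (ha2'' i (not_lt.1 h1) hi) β hβ with h | h
        · obtain ⟨j, hj, rfl⟩ := (hFmem β).1 h
          exact ⟨j, by omega, (ha1 j hj).symm⟩
        · exact ⟨i, le_rfl, h⟩
  · constructor
    · simp only; omega
    · exact ha1
    · exact hq1
    · exact inter_subset_left
    · intro i hi hi'
      simp only at hi' ⊢
      rw [hq2 i hi]
      exact hQe _ (ha2'' i hi hi')
    · intro z hz0 hz1 hz2
      simp only at hz0 hz2
      apply hE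
      intro c hc t ht
      obtain ⟨n, rfl⟩ := ht
      cases n with
      | zero => rw [hx0]; exact (hmem1 _).1 hz0.2 c hc
      | succ i =>
        by_cases hi : i < s.k
        · rw [hx1 i hi, hz1 i hi]
        · rw [hx2 i hi]
          exact (hmem1 _).1 (hz2 i (not_lt.1 hi)).2 c hc

/-- `C(βω, S)` is not normal if `S` has an uncountable independent family of clopen sets. -/
theorem not_normal [TotallyDisconnectedSpace S] [Uncountable I] {b : I → Set S}
    (hb : ∀ α, IsClopen (b α)) (hI : Free b ∅ univ) :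
    ¬ NormalSpace C(StoneCech ℕ, S) := by
  classical
  intro hN
  obtain ⟨U, V, hU, hV, hAU, hAV, hUV⟩ := hN.normal (A0 b) (A1 b) (isClosed_A0 hb) (isClosed_A1 hb)
    (disjoint_A0_A1 b)
  obtain ⟨p, hp, hgood⟩ := exists_good hb hI
  have : Infinite I := inferInstance
  obtain ⟨α₀⟩ : Nonempty I := inferInstance
  choose next hnext1 hnext2 using fun s : {s : State S I // Inv b p s} =>
    exists_next hb hp hgood hU hAU s.1 s.2
  let s0 : {s : State S I // Inv b p s} := ⟨⟨0, fun _ => α₀, fun _ => p, univ⟩, by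
    refine ⟨isClopen_univ, mem_univ _, by simpa using hI, ?_, ?_, ?_⟩
    · intro i hi; exact absurd hi (Nat.not_lt_zero _)
    · intro i hi; exact absurd hi (Nat.not_lt_zero _)
    · intro i hi; exact absurd hi (Nat.not_lt_zero _)⟩
  let st : ℕ → {s : State S I // Inv b p s} := fun n =>
    Nat.rec s0 (fun _ s => ⟨next s, hnext1 s⟩) n
  have hst : ∀ n, Rel U (st n).1 (st (n+1)).1 := fun n => hnext2 (st n)
  have hkmono : StrictMono (fun n => (st n).1.k) := strictMono_nat_of_lt_succ (fun n => (hst n).lt)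
  have hkle : ∀ n, n ≤ (st n).1.k := fun n => hkmono.id_le n
  have hcoh : ∀ n d, ∀ i < (st n).1.k, (st (n+d)).1.a i = (st n).1.a i ∧
      (st (n+d)).1.q i = (st n).1.q i := by
    intro n d
    induction d with
    | zero => intro i hi; exact ⟨rfl, rfl⟩
    | succ d ih =>
      intro i hi
      have h1 := ih i hi
      have hlt : i < (st (n+d)).1.k := lt_of_lt_of_le hi (hkmono.monotone (Nat.le_add_right n d))
      refine ⟨?_, ?_⟩
      · rw [← h1.1]; exact (hst (n+d)).a_eq i hlt
      · rw [← h1.2]; exact (hst (n+d)).q_eq i hlt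
  let a : ℕ → I := fun i => (st (i+1)).1.a i
  let q : ℕ → S := fun i => (st (i+1)).1.q i
  have haq : ∀ n, ∀ i < (st n).1.k, (st n).1.a i = a i ∧ (st n).1.q i = q i := by
    intro n i hi
    rcases le_total n (i+1) with h | h
    · obtain ⟨d, hd⟩ := Nat.exists_eq_add_of_le h
      have := hcoh n d i hi
      rw [← hd] at this
      exact ⟨this.1.symm, this.2.symm⟩
    · obtain ⟨d, hd⟩ := Nat.exists_eq_add_of_le h
      have := hcoh (i+1) d i (lt_of_lt_of_le (Nat.lt_succ_self i) (hkle (i+1)))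
      rw [← hd] at this
      exact this
  have hik : ∀ i, i < (st (i+1)).1.k := fun i => lt_of_lt_of_le (Nat.lt_succ_self i) (hkle (i+1))
  have hq_mem : ∀ i, q i ∈ b (a i) := fun i => (st (i+1)).2.q_mem i (hik i)
  have hq_first : ∀ i, ∀ β, q i ∈ b β → ∃ j ≤ i, β = a j := by
    intro i β hβ
    obtain ⟨j, hj, h⟩ := (st (i+1)).2.q_first i (hik i) β hβ
    refine ⟨j, hj, ?_⟩
    rw [h]
    exact (haq (i+1) j (lt_of_le_of_lt hj (hik i))).1
  have hanti : Antitone (fun n => (st n).1.e) := antitone_nat_of_succ_le (fun n => (hst n).sub)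
  have hq_e : ∀ n i, (st n).1.k ≤ i → q i ∈ (st n).1.e := by
    intro n i hi
    -- find m ≥ n with k_m ≤ i < k_{m+1}
    have hex : ∃ m, i < (st (m+1)).1.k := ⟨i, hik i⟩
    let m := Nat.find hex
    have hm : i < (st (m+1)).1.k := Nat.find_spec hex
    have hm' : (st m).1.k ≤ i := by
      rcases Nat.eq_zero_or_pos m with h0 | hpos
      · rw [h0]; exact Nat.zero_le _
      · have := Nat.find_min hex (m := m - 1) (by omega)
        have e1 : m - 1 + 1 = m := by omega
        rw [e1] at this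
        exact not_lt.1 this
    have hnm : n ≤ m := by
      by_contra hcon
      have h9 : (st (m+1)).1.k ≤ (st n).1.k := hkmono.monotone (show m + 1 ≤ n by omega)
      omega
    have h1 := (hst m).q_new i hm' hm
    rw [(haq (m+1) i hm).2] at h1
    exact hanti hnm h1
  obtain ⟨y0, hy0e, hy0b⟩ := exists_limit_point hb (F := fun n =>
    (Finset.range (st n).1.k).image (st n).1.a) (e := fun n => (st n).1.e)
    (fun n => (st n).2.clopen) hanti (fun n => (st n).2.free)
  let y : C(StoneCech ℕ, S) := ext (fun n => Nat.casesOn n y0 (fun i => q i))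
  have hy0 : y (stoneCechUnit 0) = y0 := by simp [y]
  have hy1 : ∀ i, y (stoneCechUnit (i+1)) = q i := fun i => by simp [y]
  have hyA : y ∈ A1 b := by
    refine ⟨fun α => ?_, ?_⟩
    · by_cases h : ∃ i, a i = α
      · obtain ⟨i, rfl⟩ := h
        right
        exact ⟨i, by rw [hy1]; exact hq_mem i⟩
      · left
        rw [hy0]
        apply hy0b
        intro n hn
        rw [Finset.mem_image] at hn
        obtain ⟨i, hi, hia⟩ := hn
        rw [Finset.mem_range] at hi
        exact h ⟨i, by rw [← hia]; exact ((haq n i hi).1).symm⟩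
    · exact Lab_of (K := fun _ => True) (fun _ _ _ _ => trivial) (fun i _ => hq_mem i)
        (fun i _ => hq_first i) y (fun i _ => hy1 i) (fun i hi => absurd trivial hi)
  obtain ⟨H, hHfin, hHclo, hH⟩ := exists_cyl (D := range (stoneCechUnit : ℕ → StoneCech ℕ))
    denseRange_stoneCechUnit (hV.mem_nhds (hAV hyA))
  -- types
  let τ : S → Set (Set S) := fun t => {c ∈ H | t ∈ c}
  have hτfin : (range (fun i => τ (q i))).Finite := by
    refine hHfin.powerset.subset ?_
    rintro _ ⟨i, rfl⟩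
    exact fun c hc => hc.1
  have hbadfin : {i : ℕ | {j : ℕ | τ (q j) = τ (q i)}.Finite}.Finite := by
    have hsub : {i : ℕ | {j : ℕ | τ (q j) = τ (q i)}.Finite} ⊆
        ⋃ c ∈ {c ∈ range (fun i => τ (q i)) | {j : ℕ | τ (q j) = c}.Finite},
          {j : ℕ | τ (q j) = c} := by
      intro i hi
      rw [mem_iUnion₂]
      exact ⟨τ (q i), ⟨⟨i, rfl⟩, hi⟩, rfl⟩
    refine Finite.subset ?_ hsub
    exact (hτfin.subset (sep_subset _ _)).biUnion (fun c hc => hc.2)
  obtain ⟨N, hN'⟩ := hbadfin.bddAbove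
  have hgoodtype : ∀ i, N < i → ∀ M, ∃ i' ≥ M, τ (q i') = τ (q i) := by
    intro i hi M
    have hinf : ¬ {j : ℕ | τ (q j) = τ (q i)}.Finite := by
      intro hf
      have := hN' hf
      omega
    obtain ⟨i', hi', hM⟩ := (show {j : ℕ | τ (q j) = τ (q i)}.Infinite from hinf).exists_gt M
    exact ⟨i', hM.le, hi'⟩
  let n : ℕ := N + 1
  have hnk : ∀ i, (st n).1.k ≤ i → N < i := by
    intro i hi
    have := hkle n
    omega
  have hch : ∀ i, ∃ i', (st n).1.k ≤ i → ((st (n+1)).1.k ≤ i' ∧ τ (q i') = τ (q i)) := by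
    intro i
    by_cases hi : (st n).1.k ≤ i
    · obtain ⟨i', hi', h⟩ := hgoodtype i (hnk i hi) (st (n+1)).1.k
      exact ⟨i', fun _ => ⟨hi', h⟩⟩
    · exact ⟨0, fun h => absurd h hi⟩
  choose g hg using hch
  let z : C(StoneCech ℕ, S) := ext (fun m => Nat.casesOn m y0
    (fun i => if i < (st n).1.k then q i else q (g i)))
  have hz0 : z (stoneCechUnit 0) = y0 := by simp [z]
  have hz1 : ∀ i < (st n).1.k, z (stoneCechUnit (i+1)) = q i := fun i hi => by simp [z, hi]
  have hz2 : ∀ i, (st n).1.k ≤ i → z (stoneCechUnit (i+1)) = q (g i) := fun i hi => by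
    simp [z, not_lt.2 hi]
  have hzU : z ∈ U := by
    apply (hst n).inU z
    · rw [hz0]; exact hy0e (n+1)
    · intro i hi
      rw [hz1 i hi]
      exact ((haq n i hi).2).symm
    · intro i hi
      rw [hz2 i hi]
      exact hq_e (n+1) (g i) (hg i hi).1
  have hzV : z ∈ V := by
    apply hH
    intro c hc t ht
    obtain ⟨m, rfl⟩ := ht
    cases m with
    | zero => rw [hz0, hy0]
    | succ i =>
      by_cases hi : i < (st n).1.k
      · rw [hz1 i hi, hy1]
      · rw [hz2 i (not_lt.1 hi), hy1]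
        have h := (hg i (not_lt.1 hi)).2
        have h1 : c ∈ τ (q (g i)) ↔ c ∈ τ (q i) := by rw [h]
        simpa [τ, hc] using h1
  exact Set.disjoint_left.1 hUV hzU hzV

end Pool.Agent.H.MP_7e6923_gt
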