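import Mathlib

set_option autoImplicit false

open Set Topology

namespace Pool.Agent.H.MP_7e6923_gt

/-- A compact subset of an open set in a compact Hausdorff totally disconnected space can be
separated by a clopen set. -/
theorem exists_clopen_between {S : Type*} [TopologicalSpace S] [CompactSpace S] [T2Space S]
    [TotallyDisconnectedSpace S] {K O : Set S} (hK : IsCompact K) (hO : IsOpen O) (hKO : K ⊆ O) :
    ∃ b : Set S, IsClopen b ∧ K ⊆ b ∧ b ⊆ O := by
  have h : ∀ x : K, ∃ V : Set S, IsClopen V ∧ (x : S) ∈ V ∧ V ⊆ O := fun x =>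
    compact_exists_isClopen_in_isOpen hO (hKO x.2)
  choose V hV hxV hVO using h
  obtain ⟨t, ht⟩ := hK.elim_finite_subcover V (fun i => (hV i).isOpen)
    (fun x hx => mem_iUnion.2 ⟨⟨x, hx⟩, hxV ⟨x, hx⟩⟩)
  refine ⟨⋃ i ∈ t, V i, ?_, ht, ?_⟩
  · exact isClopen_biUnion_finset (fun i _ => hV i)
  · exact iUnion₂_subset (fun i _ => hVO i)

/-- Basic neighbourhoods in `C(T, S)` given by finitely many clopen sets, tested on a dense set. -/
theorem exists_cyl {T S : Type*} [TopologicalSpace T] [TopologicalSpace S] [CompactSpace S]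
    [T2Space S] [TotallyDisconnectedSpace S] {D : Set T} (hD : Dense D) {U : Set C(T, S)}
    {f₀ : C(T, S)} (hU : U ∈ 𝓝 f₀) :
    ∃ E : Set (Set S), E.Finite ∧ (∀ b ∈ E, IsClopen b) ∧
      ∀ f : C(T, S), (∀ b ∈ E, ∀ t ∈ D, (f t ∈ b ↔ f₀ t ∈ b)) → f ∈ U := by
  obtain ⟨F, hFfin, hF, hFU⟩ := ContinuousMap.mem_nhds_iff.1 hU
  have h : ∀ KO : Set T × Set S, KO ∈ F → ∃ b : Set S, IsClopen b ∧ (f₀ '' KO.1) ⊆ b ∧ b ⊆ KO.2 := by
    intro KO hKO
    obtain ⟨h1, h2, h3⟩ := hF KO.1 KO.2 hKO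
    exact exists_clopen_between (h1.image f₀.continuous) h2 (mapsTo_iff_image_subset.1 h3)
  choose! b hb1 hb2 hb3 using h
  refine ⟨b '' F, hFfin.image b, ?_, ?_⟩
  · rintro _ ⟨KO, hKO, rfl⟩
    exact hb1 KO hKO
  · intro f hf
    apply hFU
    intro K O hKO t ht
    have hclo : IsClopen (b (K, O)) := hb1 _ hKO
    have hset : IsClosed {t : T | (f t ∈ b (K, O) ↔ f₀ t ∈ b (K, O))} := by
      have e : {t : T | (f t ∈ b (K, O) ↔ f₀ t ∈ b (K, O))} =
          (f ⁻¹' (b (K, O)) ∩ f₀ ⁻¹' (b (K, O))) ∪ (f ⁻¹' (b (K, O))ᶜ ∩ f₀ ⁻¹' (b (K, O))ᶜ) := by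
        ext x
        simp only [mem_setOf_eq, mem_union, mem_inter_iff, mem_preimage, mem_compl_iff]
        tauto
      rw [e]
      refine IsClosed.union ?_ ?_
      · exact (hclo.isClosed.preimage f.continuous).inter (hclo.isClosed.preimage f₀.continuous)
      · exact (hclo.compl.isClosed.preimage f.continuous).inter
          (hclo.compl.isClosed.preimage f₀.continuous)
    have hall : ∀ t : T, (f t ∈ b (K, O) ↔ f₀ t ∈ b (K, O)) := by
      intro t
      have : closure D ⊆ {t : T | (f t ∈ b (K, O) ↔ f₀ t ∈ b (K, O))} :=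
        hset.closure_subset_iff.2 (fun t ht => hf _ ⟨(K, O), hKO, rfl⟩ t ht)
      exact this (hD t)
    exact hb3 _ hKO ((hall t).2 (hb2 _ hKO ⟨t, ht, rfl⟩))

end Pool.Agent.H.MP_7e6923_gt
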