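import Pool.Agent.H.MP_7e6923_gt.Core

set_option autoImplicit false

open Set Topology

namespace Pool.Agent.H.MP_7e6923_gt

/-- Precomposition with a continuous surjection of compact Hausdorff spaces is a closed embedding
of function spaces. -/
theorem isClosedEmbedding_precomp {T D S : Type*} [TopologicalSpace T] [CompactSpace T]
    [TopologicalSpace D] [T2Space D] [TopologicalSpace S] [T2Space S] (r : C(T, D))
    (hr : Function.Surjective r) :
    IsClosedEmbedding (fun g : C(D, S) => g.comp r) := by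
  have hquot : IsQuotientMap r := (r.continuous.isClosedMap).isQuotientMap r.continuous hr
  refine ⟨⟨⟨?_⟩, ?_⟩, ?_⟩
  · -- inducing
    refine le_antisymm (continuous_iff_le_induced.1 (ContinuousMap.continuous_precomp r)) ?_
    rw [ContinuousMap.compactOpen_eq (X := D)]
    rw [TopologicalSpace.le_generateFrom_iff_subset_isOpen]
    rintro _ ⟨K, hK, O, hO, rfl⟩
    refine ⟨{f : C(T, S) | MapsTo f (r ⁻¹' K) O}, ?_, ?_⟩
    · exact ContinuousMap.isOpen_setOfPred_mapsTo
        ((IsCompact.isClosed hK).preimage r.continuous).isCompact hO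
    · ext g
      constructor
      · intro h d hd
        obtain ⟨t, rfl⟩ := hr d
        exact h hd
      · intro h t ht
        exact h ht
  · intro g g' h
    ext d
    obtain ⟨t, rfl⟩ := hr d
    exact DFunLike.congr_fun h t
  · have e : range (fun g : C(D, S) => g.comp r) =
        ⋂ (t : T) (t' : T) (_ : r t = r t'), {f : C(T, S) | f t = f t'} := by
      ext f
      simp only [mem_range, mem_iInter, mem_ofPred_eq]
      constructor
      · rintro ⟨g, rfl⟩ t t' h
        simp [h]
      · intro h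
        exact ⟨hquot.lift f (fun t t' htt' => h t t' htt'), hquot.lift_comp _ _⟩
    rw [e]
    exact isClosed_iInter fun t => isClosed_iInter fun t' => isClosed_iInter fun _ =>
      isClosed_eq (continuous_eval_const t) (continuous_eval_const t')

/-- The clopen subset of `βω` determined by `A ⊆ ω`. -/
noncomputable def chi (A : Set ℕ) : StoneCech ℕ → Prop := by
  classical
  exact fun x => stoneCechExtend (continuous_of_discreteTopology :
    Continuous (fun n : ℕ => decide (n ∈ A))) x = true

/-- The clopen subset of `βω` determined by `A ⊆ ω`. -/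
def cl (A : Set ℕ) : Set (StoneCech ℕ) := {x | chi A x}

theorem isClopen_cl (A : Set ℕ) : IsClopen (cl A) := by
  classical
  have h : IsClopen ({true} : Set Bool) := isClopen_discrete _
  exact h.preimage (continuous_stoneCechExtend (continuous_of_discreteTopology :
    Continuous (fun n : ℕ => decide (n ∈ A))))

@[simp] theorem unit_mem_cl {A : Set ℕ} {n : ℕ} : stoneCechUnit n ∈ cl A ↔ n ∈ A := by
  simp [cl, chi]

/-- Two clopen sets of `βω` agreeing on `ω` agree. -/
theorem subset_of_unit {b c : Set (StoneCech ℕ)} (hb : IsOpen b) (hc : IsClosed c)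
    (h : ∀ n : ℕ, stoneCechUnit n ∈ b → stoneCechUnit n ∈ c) : b ⊆ c := by
  have h1 : b ⊆ closure (b ∩ range (stoneCechUnit : ℕ → StoneCech ℕ)) :=
    (denseRange_stoneCechUnit (α := ℕ)).open_subset_closure_inter hb
  refine h1.trans (closure_minimal ?_ hc)
  rintro _ ⟨hx, n, rfl⟩
  exact h n hx

theorem cl_mono {A B : Set ℕ} (h : A ⊆ B) : cl A ⊆ cl B :=
  subset_of_unit (isClopen_cl A).isOpen (isClopen_cl B).isClosed (fun n hn => by
    rw [unit_mem_cl] at hn ⊢; exact h hn)

theorem cl_inter {A B : Set ℕ} : cl A ∩ cl B ⊆ cl (A ∩ B) :=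
  subset_of_unit ((isClopen_cl A).isOpen.inter (isClopen_cl B).isOpen) (isClopen_cl _).isClosed
    (fun n hn => by
      rw [mem_inter_iff, unit_mem_cl, unit_mem_cl] at hn
      rw [unit_mem_cl]; exact hn)

theorem mem_cl_compl {A : Set ℕ} {x : StoneCech ℕ} : x ∈ cl Aᶜ ↔ x ∉ cl A := by
  constructor
  · intro h1 h2
    have h3 : x ∈ cl (Aᶜ ∩ A) := cl_inter ⟨h1, h2⟩
    have h4 : cl (Aᶜ ∩ A) ⊆ (∅ : Set (StoneCech ℕ)) :=
      subset_of_unit (isClopen_cl _).isOpen isClosed_empty (fun n hn => by
        rw [unit_mem_cl] at hn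
        exact absurd hn.2 hn.1)
    exact h4 h3
  · intro h
    have h4 : (cl A)ᶜ ⊆ cl Aᶜ :=
      subset_of_unit (isClopen_cl _).compl.isOpen (isClopen_cl _).isClosed (fun n hn => by
        rw [unit_mem_cl]
        intro hnA
        exact hn (unit_mem_cl.2 hnA))
    exact h4 h

theorem cl_finite {A : Set ℕ} (hA : A.Finite) : cl A ⊆ range (stoneCechUnit : ℕ → StoneCech ℕ) := by
  refine (subset_of_unit (c := stoneCechUnit '' A) (isClopen_cl A).isOpen
    (hA.image _).isClosed (fun n hn => ⟨n, unit_mem_cl.1 hn, rfl⟩)).trans ?_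
  exact image_subset_range _ _

theorem unit_injective : Function.Injective (stoneCechUnit : ℕ → StoneCech ℕ) := by
  intro m n h
  have h1 : stoneCechUnit m ∈ cl {m} := unit_mem_cl.2 rfl
  rw [h, unit_mem_cl] at h1
  exact h1.symm

theorem cl_singleton (n : ℕ) : cl {n} = {stoneCechUnit n} := by
  apply Subset.antisymm
  · refine subset_of_unit (isClopen_cl _).isOpen isClosed_singleton (fun m hm => ?_)
    rw [unit_mem_cl] at hm
    rw [mem_singleton_iff.1 hm]
    rfl
  · rintro _ rfl
    exact unit_mem_cl.2 rfl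

theorem isOpen_range_unit : IsOpen (range (stoneCechUnit : ℕ → StoneCech ℕ)) := by
  have : range (stoneCechUnit : ℕ → StoneCech ℕ) = ⋃ n : ℕ, {stoneCechUnit n} := by
    ext x; simp [eq_comm]
  rw [this]
  exact isOpen_iUnion fun n => by rw [← cl_singleton]; exact (isClopen_cl _).isOpen

/-- the sets `cl A` form a base of `βω` -/
theorem exists_cl {x : StoneCech ℕ} {O : Set (StoneCech ℕ)} (hO : O ∈ 𝓝 x) :
    ∃ A : Set ℕ, x ∈ cl A ∧ cl A ⊆ O := by
  obtain ⟨C, hC, hCc, hCO⟩ := exists_mem_nhds_isClosed_subset hO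
  refine ⟨{n | stoneCechUnit n ∈ interior C}, ?_, ?_⟩
  · by_contra hcon
    rw [← mem_cl_compl] at hcon
    have hop : IsOpen (cl {n | stoneCechUnit n ∈ interior C}ᶜ ∩ interior C) :=
      (isClopen_cl _).isOpen.inter isOpen_interior
    obtain ⟨_, ⟨h1, h2⟩, n, rfl⟩ := (denseRange_stoneCechUnit (α := ℕ)).inter_open_nonempty _ hop
      ⟨x, hcon, mem_interior_iff_mem_nhds.2 hC⟩
    rw [unit_mem_cl] at h1
    exact h1 h2
  · exact (subset_of_unit (isClopen_cl _).isOpen hCc (fun n hn => by
      rw [unit_mem_cl] at hn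
      exact interior_subset hn)).trans hCO

theorem exists_mem_cl_of_infinite {A : Set ℕ} (hA : A.Infinite) :
    ∃ x ∈ cl A, x ∉ range (stoneCechUnit : ℕ → StoneCech ℕ) := by
  by_contra hcon
  push Not at hcon
  have hcomp : IsCompact (cl A) := (isClopen_cl A).isClosed.isCompact
  obtain ⟨t, ht⟩ := hcomp.elim_finite_subcover (fun n : ℕ => cl {n})
    (fun n => (isClopen_cl _).isOpen) (fun x hx => by
      obtain ⟨n, rfl⟩ := hcon x hx
      exact mem_iUnion.2 ⟨n, unit_mem_cl.2 rfl⟩)
  apply hA
  refine t.finite_toSet.subset (fun n hn => ?_)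
  have := ht (unit_mem_cl.2 hn)
  rw [mem_iUnion₂] at this
  obtain ⟨m, hm, hnm⟩ := this
  rw [unit_mem_cl] at hnm
  rw [mem_singleton_iff.1 hnm]
  exact hm

/-- The remainder `ω* = βω \ ω`. -/
abbrev OmegaStar : Type := {p : StoneCech ℕ // p ∉ range (stoneCechUnit : ℕ → StoneCech ℕ)}

instance : CompactSpace OmegaStar :=
  isCompact_iff_compactSpace.1 (isOpen_range_unit.isClosed_compl.isCompact)

instance : TotallyDisconnectedSpace (StoneCech ℕ) := by
  rw [totallyDisconnectedSpace_iff_connectedComponent_singleton]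
  intro x
  apply Subset.antisymm
  · intro y hy
    rw [mem_singleton_iff]
    by_contra hne
    obtain ⟨A, hxA, hA⟩ := exists_cl (isOpen_compl_singleton.mem_nhds (Ne.symm hne) :
      ({y}ᶜ : Set (StoneCech ℕ)) ∈ 𝓝 x)
    have := (isClopen_cl A).connectedComponent_subset hxA hy
    exact hA this rfl
  · rintro _ rfl
    exact mem_connectedComponent

/-- There is a continuous surjection from `ω*` onto `βω`. -/
theorem exists_surjection : ∃ r : C(OmegaStar, StoneCech ℕ), Function.Surjective r := by
  let g : ℕ → StoneCech ℕ := fun n => stoneCechUnit (Nat.unpair n).1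
  let G : StoneCech ℕ → StoneCech ℕ := stoneCechExtend (continuous_of_discreteTopology : Continuous g)
  have hG : Continuous G := continuous_stoneCechExtend _
  have hGu : ∀ n, G (stoneCechUnit n) = stoneCechUnit (Nat.unpair n).1 := fun n => by
    simp [G, g]
  let r : C(OmegaStar, StoneCech ℕ) := ⟨fun p => G p.1, hG.comp continuous_subtype_val⟩
  refine ⟨r, ?_⟩
  have hcl : IsClosed (range r) := (isCompact_range r.continuous).isClosed
  have hsub : range (stoneCechUnit : ℕ → StoneCech ℕ) ⊆ range r := by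
    rintro _ ⟨n, rfl⟩
    have hinf : {m : ℕ | (Nat.unpair m).1 = n}.Infinite := by
      refine infinite_of_injective_forall_mem (f := fun k : ℕ => Nat.pair n k) ?_ ?_
      · intro k k' h
        simpa using h
      · intro k
        simp
    obtain ⟨x, hx, hx'⟩ := exists_mem_cl_of_infinite hinf
    refine ⟨⟨x, hx'⟩, ?_⟩
    have : cl {m : ℕ | (Nat.unpair m).1 = n} ⊆ {x | G x = stoneCechUnit n} :=
      subset_of_unit (isClopen_cl _).isOpen (isClosed_eq hG continuous_const) (fun m hm => by
        rw [unit_mem_cl] at hm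
        change G (stoneCechUnit m) = stoneCechUnit n
        rw [hGu m, hm])
    exact this hx
  have huniv : range r = univ := by
    have h1 : closure (range (stoneCechUnit : ℕ → StoneCech ℕ)) ⊆ range r :=
      closure_minimal hsub hcl
    rw [(denseRange_stoneCechUnit (α := ℕ)).closure_eq] at h1
    exact univ_subset_iff.1 h1
  exact range_eq_univ.1 huniv

/-- An independent family of subsets of `ω` indexed by `Set ℕ`, mod finite. -/
theorem exists_independent : ∃ B : Set ℕ → Set ℕ, ∀ P N : Finset (Set ℕ), Disjoint P N →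
    {n : ℕ | (∀ X ∈ P, n ∈ B X) ∧ (∀ X ∈ N, n ∉ B X)}.Infinite := by
  classical
  let φ : Finset ℕ × Finset (Finset ℕ) ≃ ℕ := Denumerable.eqv _
  let tr : Finset ℕ → Set ℕ → Finset ℕ := fun F X => F.filter (· ∈ X)
  refine ⟨fun X => {n | tr (φ.symm n).1 X ∈ (φ.symm n).2}, ?_⟩
  intro P N hPN
  -- separation level
  have hsep : ∃ m0 : ℕ, ∀ X ∈ P, ∀ Y ∈ N, ∀ m ≥ m0, tr (Finset.range m) X ≠ tr (Finset.range m) Y := by
    have h1 : ∀ X Y : Set ℕ, X ≠ Y → ∃ m0 : ℕ, ∀ m ≥ m0, tr (Finset.range m) X ≠ tr (Finset.range m) Y := by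
      intro X Y hXY
      have : ∃ k, ¬ (k ∈ X ↔ k ∈ Y) := by
        by_contra hcon
        push Not at hcon
        exact hXY (Set.ext hcon)
      obtain ⟨k, hk⟩ := this
      refine ⟨k+1, fun m hm heq => hk ?_⟩
      have := Finset.ext_iff.1 heq k
      simp only [tr, Finset.mem_filter, Finset.mem_range] at this
      have hkm : k < m := by omega
      simpa [hkm] using this
    choose! f hf using h1
    refine ⟨(P ×ˢ N).sup (fun p => f p.1 p.2), fun X hX Y hY m hm => ?_⟩
    apply hf X Y
    · rintro rfl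
      exact Finset.disjoint_left.1 hPN hX hY
    · refine le_trans ?_ hm
      have hmem : (X, Y) ∈ P ×ˢ N := Finset.mem_product.2 ⟨hX, hY⟩
      exact Finset.le_sup (f := fun p : Set ℕ × Set ℕ => f p.1 p.2) hmem
  obtain ⟨m0, hm0⟩ := hsep
  refine infinite_of_injective_forall_mem
    (f := fun j : ℕ => φ (Finset.range (m0 + j), P.image (tr (Finset.range (m0 + j))))) ?_ ?_
  · intro j j' h
    have h1 := φ.injective h
    rw [Prod.mk.injEq] at h1
    have h2 := congrArg Finset.card h1.1
    simpa using h2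
  · intro j
    refine ⟨fun X hX => ?_, fun Y hY => ?_⟩
    · simp only [mem_ofPred_eq, Equiv.symm_apply_apply]
      exact Finset.mem_image_of_mem _ hX
    · simp only [mem_ofPred_eq, Equiv.symm_apply_apply]
      intro hmem
      rw [Finset.mem_image] at hmem
      obtain ⟨X, hX, h⟩ := hmem
      exact hm0 X hX Y hY (m0 + j) (by omega) h

/-- The independent family of clopen subsets of `ω*`. -/
theorem exists_free_family : ∃ b : Set ℕ → Set OmegaStar, (∀ X, IsClopen (b X)) ∧
    Free b ∅ univ := by
  obtain ⟨B, hB⟩ := exists_independent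
  refine ⟨fun X => {p | p.1 ∈ cl (B X)}, fun X => ?_, ?_⟩
  · exact (isClopen_cl (B X)).preimage continuous_subtype_val
  · intro P N hPN _ _
    obtain ⟨x, hx, hx'⟩ := exists_mem_cl_of_infinite (hB P N hPN)
    refine ⟨⟨x, hx'⟩, mem_univ _, fun X hX => ?_, fun X hX => ?_⟩
    · exact cl_mono (fun n hn => hn.1 X hX) hx
    · have : x ∈ cl (B X)ᶜ := cl_mono (fun n hn => hn.2 X hX) hx
      exact mem_cl_compl.1 this

end Pool.Agent.H.MP_7e6923_gt
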